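import Pool.Agent.H543.MQ.U.U6
import Pool.Agent.H543.MQ.Inst2

/-!
# Schinzel's Goldbach-type problem: every large admissible `N`
-/

set_option autoImplicit false
set_option linter.unusedSectionVars false

namespace Pool.Agent.H543.MQ.U

open Finset Filter Polynomial
open Pool.Agent.H543.DP (fv dt)

/-- a polynomial with positive leading coefficient is positive at large integers -/
theorem pos_ev (P : ℤ[X]) (h : 0 < P.leadingCoeff) : ∀ᶠ n : ℕ in atTop, 0 < P.eval (n : ℤ) := by
  by_cases h0 : P.natDegree = 0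
  · refine Eventually.of_forall fun n => ?_
    obtain ⟨a, rfl⟩ := natDegree_eq_zero.1 h0
    rw [leadingCoeff_C] at h
    rw [eval_C]
    exact h
  · have hinj : Function.Injective (Int.castRingHom ℝ) := Int.cast_injective
    have h1 : 0 < (P.map (Int.castRingHom ℝ)).degree := by
      rw [degree_map_eq_of_injective hinj]
      exact natDegree_pos_iff_degree_pos.1 (Nat.pos_of_ne_zero h0)
    have h2 : 0 ≤ (P.map (Int.castRingHom ℝ)).leadingCoeff := by
      rw [leadingCoeff_map_of_injective hinj]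
      simp only [eq_intCast]
      exact_mod_cast h.le
    have h3 := (tendsto_atTop_of_leadingCoeff_nonneg _ h1 h2).comp
      (tendsto_natCast_atTop_atTop (R := ℝ))
    filter_upwards [h3.eventually_gt_atTop 0] with n hn
    have h4 : eval (n : ℝ) (P.map (Int.castRingHom ℝ)) = ((P.eval (n : ℤ) : ℤ) : ℝ) := by
      rw [eval_map]
      have : ((n : ℕ) : ℝ) = Int.castRingHom ℝ (n : ℤ) := by simp
      rw [this, eval₂_at_apply]
      simp
    simp only [Function.comp_apply] at hn
    rw [h4] at hn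
    exact_mod_cast hn

/-- growth from below -/
theorem low_ev (P : ℤ[X]) (h : 0 < P.leadingCoeff) :
    ∀ᶠ n : ℕ in atTop, ((n : ℤ)) ^ P.natDegree < 2 * P.eval (n : ℤ) := by
  have h1 : 0 < (C 2 * P - X ^ P.natDegree : ℤ[X]).leadingCoeff := by
    have e : (C 2 * P - X ^ P.natDegree : ℤ[X]).coeff P.natDegree = 2 * P.leadingCoeff - 1 := by
      rw [coeff_sub, coeff_C_mul, coeff_X_pow, if_pos rfl]
      rfl
    have hd : (C 2 * P - X ^ P.natDegree : ℤ[X]).natDegree ≤ P.natDegree := by
      refine (natDegree_sub_le _ _).trans (max_le ?_ ?_)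
      · exact natDegree_C_mul_le _ _
      · exact natDegree_X_pow_le _
    have hne : (C 2 * P - X ^ P.natDegree : ℤ[X]).coeff P.natDegree ≠ 0 := by
      rw [e]
      omega
    have hd2 : (C 2 * P - X ^ P.natDegree : ℤ[X]).natDegree = P.natDegree :=
      le_antisymm hd (le_natDegree_of_ne_zero hne)
    rw [leadingCoeff, hd2, e]
    omega
  filter_upwards [pos_ev _ h1] with n hn
  simp only [eval_sub, eval_mul, eval_C, eval_pow, eval_X] at hn
  linarith

/-- growth from above -/
theorem up_ev (P : ℤ[X]) (h : 0 < P.leadingCoeff) :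
    ∀ᶠ n : ℕ in atTop, P.eval (n : ℤ) < (P.leadingCoeff + 1) * (n : ℤ) ^ P.natDegree := by
  have h1 : 0 < (C (P.leadingCoeff + 1) * X ^ P.natDegree - P : ℤ[X]).leadingCoeff := by
    have e : (C (P.leadingCoeff + 1) * X ^ P.natDegree - P : ℤ[X]).coeff P.natDegree = 1 := by
      rw [coeff_sub, coeff_C_mul, coeff_X_pow, if_pos rfl, mul_one]
      show P.leadingCoeff + 1 - P.leadingCoeff = 1
      ring
    have hd : (C (P.leadingCoeff + 1) * X ^ P.natDegree - P : ℤ[X]).natDegree ≤ P.natDegree := by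
      refine (natDegree_sub_le _ _).trans (max_le ?_ le_rfl)
      exact (natDegree_C_mul_le _ _).trans (natDegree_X_pow_le _)
    have hne : (C (P.leadingCoeff + 1) * X ^ P.natDegree - P : ℤ[X]).coeff P.natDegree ≠ 0 := by
      rw [e]
      omega
    have hd2 : (C (P.leadingCoeff + 1) * X ^ P.natDegree - P : ℤ[X]).natDegree = P.natDegree :=
      le_antisymm hd (le_natDegree_of_ne_zero hne)
    rw [leadingCoeff, hd2, e]
    omega
  filter_upwards [pos_ev _ h1] with n hn
  simp only [eval_sub, eval_mul, eval_C, eval_pow, eval_X] at hn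
  linarith

/-- few prime factors -/
theorem om_r (v x : ℕ) (δ s : ℝ) (r : ℕ) (hv : v ≠ 0) (hx : 2 ≤ x) (hδ : 0 < δ)
    (hvx : (v : ℝ) ≤ (x : ℝ) ^ s) (hr : s / δ ≤ r)
    (h : ∀ p : ℕ, p.Prime → p ∣ v → (x : ℝ) ^ δ ≤ p) : v.primeFactorsList.length ≤ r := by
  have hxr : (2 : ℝ) ≤ x := by exact_mod_cast hx
  have hx0 : (0 : ℝ) < x := by linarith
  have h1 := Pool.Agent.H543.MQ.om_le v hv ((x : ℝ) ^ δ) (Real.one_le_rpow (by linarith) hδ.le) h
  by_contra hcon
  push Not at hcon
  have h2 : s / δ < v.primeFactorsList.length := hr.trans_lt (by exact_mod_cast hcon)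
  have h4 : (x : ℝ) ^ s < ((x : ℝ) ^ δ) ^ v.primeFactorsList.length := by
    rw [← Real.rpow_natCast, ← Real.rpow_mul hx0.le]
    apply Real.rpow_lt_rpow_of_exponent_lt (by linarith)
    rw [div_lt_iff₀ hδ] at h2
    linarith
  linarith

end Pool.Agent.H543.MQ.U
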