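import Pool.Agent.H543.MQ.U.U0

/-!
# The two sums at one place, the sieve at one slot having a remainder only on average
-/

set_option autoImplicit false
set_option linter.unusedSectionVars false

namespace Pool.Agent.H543.MQ.U

open Finset Filter
open Pool.Agent.R498.MT hiding Vp_low pt_up exb' c1z
open Pool.Agent.H543.MQ hiding pre core1q
open Pool.Agent.Y677.RSZ (rt Sys rhoT per_mod ev_log)
open Pool.Agent.TH423.SH (PS)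
open Pool.Agent.W23.DC
open Pool.Agent.Y882
open Pool.Agent.Y882.PX hiding gd
open Pool.Agent.Y882.KW

open Classical in
/-- the two sums at one place -/
theorem core1q (F G : ℤ → ℤ) (g : ℕ) (hF : Sys0 g F) (hG : Sys g G)
    (hGF : ∀ p : ℕ, p.Prime → ∀ n : ℤ, (p : ℤ) ∣ G n → (p : ℤ) ∣ F n)
    (D : ℕ) (hGs : ∀ n : ℕ, G (n : ℤ) ≠ 0 ∧ (G (n : ℤ)).natAbs ≤ (n + 2) ^ D)
    (m k W c' N Y b M L z : ℕ) (τ ζ υ aw bw R f0 ε₁ C₁ E : ℝ) (hτ0 : 0 ≤ τ) (hτ : τ ≤ 1)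
    (hυ : ε₁ ≤ υ) (hb : 0 ≤ bw) (hab : bw * υ ≤ aw) (hC₁ : 0 ≤ C₁)
    (hR : 0 < R) (hRζ : R < ζ) (hf0 : 0 < f0) (hW : 0 < W)
    (hk : 3 * ((m : ℝ) + 1) * 1474560 ≤ f0 * R * k) (hε : 0 < ε₁)
    (hεe : ε₁ ≤ e0 k C₁ R) (hE : 0 ≤ E) (hbE : E ≤ ε₁ ^ (16 * (2 ^ k) ^ 2 + 1))
    (hc' : ((2 ^ k : ℕ) : ℝ) * (2 * D / ε₁) ≤ c') (t : Fin (2 ^ k) → ℕ) (hN : ∀ i, t i ≤ N)
    (e4 : W * (N + 1) + b + 3 ≤ Y) (hMY : M + L ≤ Y)
    (hbW : ∀ p : ℕ, p.Prime → p ∣ W → ¬ (p : ℤ) ∣ F b) (hz2 : (Y : ℝ) ^ ε₁ ≤ z + 1)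
    (cL0 : Finset ℕ → ℝ) (hc1 : ∀ T, |cL0 T| ≤ C₁)
    (hc2 : ∀ T ⊆ pr Y ε₁ υ, cL0 T ≠ 0 → ((∏ p ∈ T, p : ℕ) : ℝ) ≤ (Y : ℝ) ^ τ)
    (hc3 : ∀ N : ℕ, VV (pr Y ε₁ υ) cL0 (fun p => if p ∣ N then 1 else 0) ≤ WB Y ε₁ ζ υ aw bw N)
    (hc4 : ε₁ * f0 ≤ VV (pr Y ε₁ υ) cL0 (fun p => (rt G p : ℝ) / p))
    (hd : Dat (qs G Y ε₁ υ) (mus G Y ε₁ υ) (ls G Y ε₁ υ) ε₁ R υ (om k C₁ ε₁))
    (hU : ∀ (K : ℕ) (s : Pg G Y ε₁ υ) i j, ((s : ℕ) : ℤ) ∣ G ((W * (K + t i) + b : ℕ) : ℤ) →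
      ((s : ℕ) : ℤ) ∣ G ((W * (K + t j) + b : ℕ) : ℤ) → i = j)
    (hV0 : 0 < Vp F W b z t)
    (hcnt : Cnt (Ioc M (M + L)) (nuI F W b z t) (xi G W b t (fun s : Pg G Y ε₁ υ => (s : ℕ)))
      (fun s _ => 1 / qs G Y ε₁ υ s) (L * Vp F W b z t) E
      (fun T => lt (ls G Y ε₁ υ) T ≤ 2 * R))
    (θ : ℕ → ℝ) (X' B Bq : ℝ) (hθ : ∀ K, nuI F W b z t K ≤ θ K)
    (hX1 : L * Vp F W b z t ≤ X') (hX2 : X' ≤ (1 + E) * (L * Vp F W b z t)) (hB : 0 ≤ B)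
    (hBq : ∀ U : Finset (Pg G Y ε₁ υ), lz (ls G Y ε₁ υ) U ≤ 2 * R →
      ∏ s ∈ U, (1 + 2 ^ k * qs G Y ε₁ υ s ^ 2) ≤ Bq)
    (hR1 : ∀ i, Rem k (qs G Y ε₁ υ) (ls G Y ε₁ υ) R i
      (fun T => cL0 (T.map (Function.Embedding.subtype _))) (Ioc M (M + L)) θ
      (xi G W b t (fun s : Pg G Y ε₁ υ => (s : ℕ))) X' B)
    (hR0 : ∀ i, Rem k (qs G Y ε₁ υ) (ls G Y ε₁ υ) R i
      (fun T => if T = ∅ then 1 else 0) (Ioc M (M + L)) θ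
      (xi G W b t (fun s : Pg G Y ε₁ υ => (s : ℕ))) X' B)
    (hBX : (∏ s, (1 + 2 ^ k * mus G Y ε₁ υ s)) ^ 2 * (Bq * B) ≤
      L * Vp F W b z t / (8 * 2 ^ k)) :
    1 / (2 ^ k * (Ab k ε₁ * 2 ^ c') ^ 2) * (L * Vp F W b z t) ≤
      ((gd F G Y ε₁ ζ υ aw bw W b t m M L).card : ℝ) := by
  have hY2' : 2 ≤ Y := by omega
  have hξ : ∀ K (s : Pg G Y ε₁ υ) j,
      xi G W b t (fun s : Pg G Y ε₁ υ => (s : ℕ)) K s = some j ↔
        ((s : ℕ) : ℤ) ∣ G ((W * (K + t j) + b : ℕ) : ℤ) :=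
    fun K s j => xi_iff G W b t _ K s (hU K s) j
  have hX : 0 ≤ (L : ℝ) * Vp F W b z t := by positivity
  have hasm := asm2 k C₁ R f0 τ hC₁ hR hf0 m hτ hk ε₁ hε hεe υ
    (qs G Y ε₁ υ) (mus G Y ε₁ υ) (ls G Y ε₁ υ) hd
    (fun s => by
      have h1 := hd.q2 s
      unfold mus
      apply one_div_le_one_div_of_le (by linarith)
      linarith)
    (fun T => cL0 (T.map (Function.Embedding.subtype _))) (fun T => hc1 _)
    (fun T hT => lz_le G Y ε₁ υ hY2' T τ (hc2 _ (by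
      intro p hp
      rw [Finset.mem_map] at hp
      obtain ⟨s, _, rfl⟩ := hp
      exact (mem_filter.1 s.2).1) hT))
    (by
      rw [mul_comm f0 ε₁]
      refine hc4.trans (le_of_eq ?_)
      rw [VV_restrict (pr Y ε₁ υ) (Pg G Y ε₁ υ) (filter_subset _ _) cL0
        (fun p => (rt G p : ℝ) / p) (fun p hp hp' => by
          have h0 : rt G p = 0 := by
            by_contra h1
            exact hp' (mem_filter.2 ⟨hp, h1⟩)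
          rw [h0]
          simp)]
      refine sum_congr rfl fun T _ => ?_
      congr 1
      refine prod_congr rfl fun s _ => ?_
      unfold qs
      rw [one_div, inv_div])
    (N := Ioc M (M + L)) (ν := nuI F W b z t) (θ := θ)
    (ξ := xi G W b t (fun s : Pg G Y ε₁ υ => (s : ℕ))) (X := L * Vp F W b z t) (X' := X')
    (E := E) (B := B) (Bq := Bq) hX hX1 hX2 hE hbE hcnt
    (fun K _ => by unfold nuI; split_ifs <;> norm_num) (fun K _ => hθ K) hB hBq hR1 hR0 hBX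
    (fun K i => WB Y ε₁ ζ υ aw bw (G ((W * (K + t i) + b : ℕ) : ℤ)).natAbs)
    (fun K _ i => by
      have h1 := slot_w G hG.per Y ε₁ υ hY2' cL0 (W * (K + t i) + b) i
        (xi G W b t (fun s : Pg G Y ε₁ υ => (s : ℕ)) K) (fun s => hξ K s i)
      have h2 := hc3 (G ((W * (K + t i) + b : ℕ) : ℤ)).natAbs
      refine le_trans (le_of_eq ?_) h2
      refine Eq.trans ?_ h1
      refine sum_congr rfl fun T _ => ?_
      congr)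
    (fun K _ i => WB_le_one Y ε₁ ζ υ aw bw hb hab _)
    (fun K _ i hw s hs => by
      have h1 := (hξ K s i).1 hs
      have h2 := WB_ne Y ε₁ ζ υ aw bw _ hw (s : ℕ) ((mem_filter.1 s.2).1) (Int.natCast_dvd.1 h1)
      show R < tt Y (s : ℕ)
      linarith)
  have hIf : 1 ≤ If (mus G Y ε₁ υ) (ls G Y ε₁ υ) R k :=
    one_le_pow₀ (I2_one hd hε hR k)
  have hB0 : 0 < (Ab k ε₁ * 2 ^ c') ^ 2 := by
    have := Ab_one k ε₁ hε (hεe.trans (e0_le k C₁ R).2)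
    positivity
  have hup := sum_le_sum (s := Ioc M (M + L)) fun K hK =>
    pt_up F G g hF hGF Y ε₁ ζ υ aw bw ((Ab k ε₁ * 2 ^ c') ^ 2)
      (Lam none (qs G Y ε₁ υ) (mus G Y ε₁ υ) (yf (ls G Y ε₁ υ) R k)
        (xi G W b t (fun s : Pg G Y ε₁ υ => (s : ℕ)) K) ^ 2) W b z k m M L t hY2' hb hab hbW hz2 K
        hK (sq_nonneg _)
      (Lam_fin k C₁ R hR ε₁ hε υ hυ (qs G Y ε₁ υ) (mus G Y ε₁ υ)
        (ls G Y ε₁ υ) _ hd _ c' (few_c G D hGs W b N k c' Y K ε₁ υ hε t hN hW hc' e4 (by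
          rw [mem_Ioc] at hK
          omega) _ (fun s j => hξ K s j)))
  have hsum : ∑ K ∈ Ioc M (M + L), (if K ∈ gd F G Y ε₁ ζ υ aw bw W b t m M L then
      (Ab k ε₁ * 2 ^ c') ^ 2 * 2 ^ k else 0) =
      (gd F G Y ε₁ ζ υ aw bw W b t m M L).card * ((Ab k ε₁ * 2 ^ c') ^ 2 * 2 ^ k) := by
    rw [← sum_filter, sum_const, nsmul_eq_mul]
    congr 2
    congr 1
    ext K
    rw [mem_filter]
    constructor
    · exact fun h => h.2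
    · intro h
      refine ⟨?_, h⟩
      unfold gd at h
      exact (mem_filter.1 h).1
  rw [hsum] at hup
  have h1 := hasm.trans hup
  have h2 : 1 * (L * Vp F W b z t) ≤
      L * Vp F W b z t * If (mus G Y ε₁ υ) (ls G Y ε₁ υ) R k := by nlinarith
  rw [div_mul_eq_mul_div, div_le_iff₀ (by positivity)]
  calc 1 * (L * Vp F W b z t) ≤ (gd F G Y ε₁ ζ υ aw bw W b t m M L).card *
        ((Ab k ε₁ * 2 ^ c') ^ 2 * 2 ^ k) := h2.trans h1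
    _ = _ := by ring

end Pool.Agent.H543.MQ.U
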