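import Pool.Agent.H543.MQ.U.U3

/-!
# Families of polynomials with arbitrary coefficients: the theorem
-/

set_option autoImplicit false
set_option linter.unusedSectionVars false

namespace Pool.Agent.H543.MQ.U

open Finset Filter Polynomial
open Pool.Agent.R498.MT hiding Vp_low pt_up exb' c1z PP_rt PP_sys PP_V
open Pool.Agent.H543.MQ hiding pre core1q core2
open Pool.Agent.Y677.RSZ (rt Sys rhoT per_mod ev_log V eng_all)
open Pool.Agent.TH423.SH (PS)
open Pool.Agent.W23.DC
open Pool.Agent.Y882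
open Pool.Agent.Y882.PX hiding gd
open Pool.Agent.Y882.KW
open Pool.Agent.Y346.PA (S_KL)
open Pool.Agent.H543.DD
open Pool.Agent.H543.DP (fv NV dt NS cF)

theorem PP_rt (P : ℤ[X]) (g : ℕ) (hF : Sys0 g (fun n => P.eval n)) (W b : ℕ) {n : ℕ}
    (t : Fin n → ℕ) (p : ℕ) (hp : p.Prime) (hW : ¬ p ∣ W) :
    rt (fun n => (PP P W t).eval n) p = rhoT (fun n => P.eval n) W b t p := by
  classical
  have hper : ∀ m : ℤ, (p : ℤ) ∣ (fun n => (PP P W t).eval n) (m + p) - (fun n => (PP P W t).eval n) m := by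
    intro m
    have h1 := sub_dvd_eval_sub (m + p) m (PP P W t)
    rw [add_sub_cancel_left] at h1
    exact h1
  have h1 := Pool.Agent.Y833.RSZ.card_shift (F := fun n => (PP P W t).eval n) hp hper W b 0 hW
  rw [← h1]
  unfold rhoT
  apply congrArg Finset.card
  ext r
  rw [mem_filter, mem_filter, add_zero]
  rw [PP_dvd P W b t p hp r]

theorem PP_sys (P : ℤ[X]) (hP : P ≠ 0) (g : ℕ) (hF : Sys0 g (fun n => P.eval n)) (W b : ℕ)
    {n : ℕ} (t : Fin n → ℕ) (hWp : ∀ p : ℕ, p.Prime → p ≤ g * n + 1 → p ∣ W)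
    (hb : ∀ p : ℕ, p.Prime → p ∣ W → ¬ (p : ℤ) ∣ P.eval (b : ℤ)) :
    ∃ g' : ℕ, Sys g' (fun n => (PP P W t).eval n) := by
  classical
  apply Pool.Agent.Y677.RSZ.poly_all _ (PP_ne P hP W t)
  intro p hp
  by_cases hpW : p ∣ W
  · refine ⟨((W * 0 + b : ℕ) : ℤ), fun h => ?_⟩
    obtain ⟨i, hi⟩ := (PP_dvd P W b t p hp 0).1 h
    apply hb p hp hpW
    refine (per_mod (F := fun n => P.eval n) hF.per hp (W * (0 + t i) + b) b ?_).1 hi
    have : W * (0 + t i) ≡ 0 [MOD p] := (Nat.modEq_zero_iff_dvd).2 (hpW.mul_right _)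
    simpa using this.add_right b
  · have h1 : rhoT (fun n => P.eval n) W b t p < p := by
      have h2 := Pool.Agent.Y833.RSZ.rhoT_le (F := fun n => P.eval n) hp (hF.per p hp) W b t hpW
      have h3 : n * rt (fun n => P.eval n) p ≤ n * g := Nat.mul_le_mul_left _ (hF.root p hp).1
      have h4 : g * n + 1 < p := by
        by_contra hcon
        exact hpW (hWp p hp (not_lt.1 hcon))
      have h5 : n * g = g * n := mul_comm _ _
      omega
    unfold rhoT at h1
    have h2 : ∃ r ∈ range p, ¬ ∃ i, (p : ℤ) ∣ P.eval ((W * (r + t i) + b : ℕ) : ℤ) := by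
      by_contra hcon
      push Not at hcon
      have h3 : (range p).filter (fun r : ℕ => ∃ i, (p : ℤ) ∣
          (fun n => P.eval n) ((W * (r + t i) + b : ℕ) : ℤ)) = range p := by
        apply filter_true_of_mem
        intro r hr
        exact hcon r hr
      rw [h3, card_range] at h1
      omega
    obtain ⟨r, -, hr⟩ := h2
    refine ⟨((W * r + b : ℕ) : ℤ), fun h => hr ?_⟩
    exact (PP_dvd P W b t p hp r).1 h

/-- comparison of the sieve products -/
theorem PP_V (P : ℤ[X]) (g : ℕ) (hF : Sys0 g (fun n => P.eval n)) (W b z H : ℕ) {n : ℕ}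
    (t : Fin n → ℕ) (hzH : z ≤ H) :
    V (fun n => (PP P W t).eval n) 1 H ≤ Vp (fun n => P.eval n) W b z t := by
  classical
  have e : Vp (fun n => P.eval n) W b z t = ∏ p ∈ PS W z,
      (1 - (rt (fun n => (PP P W t).eval n) p : ℝ) / p) := by
    unfold Vp
    refine prod_congr rfl fun p hp => ?_
    unfold PS at hp
    rw [mem_filter] at hp
    rw [PP_rt P g hF W b t p hp.2.1 hp.2.2]
  rw [e]
  unfold V
  have hsub : PS W z ⊆ PS 1 H := by
    intro p hp
    unfold PS at hp ⊢
    rw [mem_filter, mem_Icc] at hp ⊢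
    exact ⟨⟨hp.1.1, hp.1.2.trans hzH⟩, hp.2.1, by rw [Nat.dvd_one]; exact hp.2.1.ne_one⟩
  rw [← prod_sdiff hsub]
  exact mul_le_of_le_one_left (prod_nonneg fun p _ => Pool.Agent.Y677.RSZ.fac_nonneg p)
    (prod_le_one (fun p _ => Pool.Agent.Y677.RSZ.fac_nonneg p)
      (fun p _ => Pool.Agent.Y677.RSZ.fac_le p))


theorem Gf_mono (A : ℕ) (B C : ℤ) (F : ℤ → ℤ) (N : ℕ) (δ ε : ℝ) (h : δ ≤ ε) (hN : 1 ≤ N) (x : ℕ)
    (hx : Gf A B C F N ε x) : Gf A B C F N δ x :=
  ⟨hx.1, hx.2.1, fun p hp hd => (Real.rpow_le_rpow_of_exponent_le (by exact_mod_cast hN) h).trans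
    (hx.2.2 p hp hd)⟩

open Classical in
/-- the pattern and the number of its occurrences -/
theorem wrap (A : ℕ) (B C : ℤ) (F : ℤ → ℤ) (N W b r k m L z M X aL : ℕ) (ε₁ δ c : ℝ)
    (t : Fin (2 ^ k) → ℕ) (Hs : Finset (Fin (2 ^ k))) (A' HH : Finset ℕ)
    (hW : 2 ≤ W) (hbW : b < W) (hrW : r < W) (ht : Function.Injective t)
    (hmem : ∀ i, W * t i + r ∈ HH) (hc : 0 < c) (hN5 : 5 ≤ N) (hδ : δ ≤ ε₁)
    (hlog : 2 ^ aL * (4 * W) / c ≤ Real.log N)
    (h1 : Hs.card = m) (h2 : c * (L * Vp F W b z t) ≤ A'.card)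
    (h3 : 1 ≤ Real.log ((N ^ 2 : ℕ) : ℝ) ^ aL * Vp F W b z t) (h4 : 0 < Vp F W b z t)
    (h5 : W * (L + 2) ≤ X) (h6 : X ≤ 4 * (W * L)) (h7 : N + r < W * M) (h8 : W * M ≤ N + r + W)
    (h9 : ∀ K ∈ A', K ∈ Ioc M (M + L) ∧ ∀ i ∈ Hs, Gf A B C F N ε₁ (W * (K + t i) + b)) :
    (Hs.image (fun i => W * t i + r)) ⊆ HH ∧ (Hs.image (fun i => W * t i + r)).card = m ∧
      X / Real.log N ^ (aL + 1) ≤ (((Ioc N (N + X)).filter (fun n : ℕ =>
        ∀ h ∈ Hs.image (fun i => W * t i + r), Gf A B C F N δ (n + h))).card : ℝ) := by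
  have hW0 : 0 < W := by omega
  have hNr : (5 : ℝ) ≤ N := by exact_mod_cast hN5
  have hlN : 0 < Real.log N := Real.log_pos (by linarith)
  refine ⟨?_, ?_, ?_⟩
  · intro h hh
    rw [mem_image] at hh
    obtain ⟨i, _, rfl⟩ := hh
    exact hmem i
  · rw [card_image_of_injective _ (fun i j hij => by
      have h1 : W * t i + r = W * t j + r := hij
      have h2 : W * t i = W * t j := by omega
      exact ht (Nat.eq_of_mul_eq_mul_left hW0 h2))]
    exact h1
  · have hWL2 : W * (L + 2) = W * L + W + W := by ring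
    have hbds : ∀ K ∈ Ioc M (M + L), N + r < W * K + b ∧ W * K + b ≤ N + r + W + W * L + b := by
      intro K hK
      rw [mem_Ioc] at hK
      have h2 : W * (M + 1) ≤ W * K := Nat.mul_le_mul_left _ (by omega)
      have h3 : W * K ≤ W * (M + L) := Nat.mul_le_mul_left _ hK.2
      have h5 : W * (M + L) = W * M + W * L := by ring
      have h6 : W * (M + 1) = W * M + W := by ring
      refine ⟨by omega, by omega⟩
    have e1 : A'.card ≤ ((Ioc N (N + X)).filter (fun n : ℕ =>
        ∀ h ∈ Hs.image (fun i => W * t i + r), Gf A B C F N δ (n + h))).card := by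
      apply card_le_card_of_injOn (fun K => W * K + b - r)
      · intro K hK
        have hK' := hbds K (h9 K hK).1
        rw [mem_coe, mem_filter, mem_Ioc]
        refine ⟨⟨?_, ?_⟩, ?_⟩
        · show N < W * K + b - r
          omega
        · show W * K + b - r ≤ N + X
          omega
        intro h hh
        rw [mem_image] at hh
        obtain ⟨i, hi, rfl⟩ := hh
        have h1 := (h9 K hK).2 i hi
        have e : W * K + b - r + (W * t i + r) = W * (K + t i) + b := by
          have : W * (K + t i) = W * K + W * t i := by ring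
          omega
        simp only
        rw [e]
        exact Gf_mono A B C F N δ ε₁ hδ (by omega) _ h1
      · intro K hK K' hK' hKK
        have h1 := hbds K (h9 K hK).1
        have h2 := hbds K' (h9 K' hK').1
        have h0 : W * K + b - r = W * K' + b - r := hKK
        have h3 : W * K = W * K' := by
          have h4 := h1.1
          have h5 := h2.1
          clear * - h0 h4 h5
          omega
        exact Nat.eq_of_mul_eq_mul_left hW0 h3
    have e2 : (X : ℝ) / Real.log N ^ (aL + 1) ≤ A'.card := by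
      refine le_trans ?_ h2
      have h3' : (X : ℝ) ≤ 4 * (W * L) := by exact_mod_cast h6
      have h4' : Real.log ((N ^ 2 : ℕ) : ℝ) = 2 * Real.log N := by
        push_cast
        rw [Real.log_pow]
        norm_num
      rw [h4', mul_pow] at h3
      rw [div_le_iff₀ (by positivity)]
      rw [div_le_iff₀ hc] at hlog
      have h6 : (0 : ℝ) ≤ L := Nat.cast_nonneg L
      calc (X : ℝ) ≤ 4 * (W * L) * 1 := by rw [mul_one]; exact h3'
        _ ≤ 4 * (W * L) * (2 ^ aL * Real.log N ^ aL * Vp F W b z t) :=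
            mul_le_mul_of_nonneg_left h3 (by positivity)
        _ = (L * Real.log N ^ aL * Vp F W b z t) * (2 ^ aL * (4 * W)) := by ring
        _ ≤ (L * Real.log N ^ aL * Vp F W b z t) * (Real.log N * c) :=
            mul_le_mul_of_nonneg_left hlog (by positivity)
        _ = _ := by ring
    refine e2.trans ?_
    exact_mod_cast e1

end Pool.Agent.H543.MQ.U
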