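import Pool.Agent.H543.MQ.U.U4

/-!
# Families of polynomials with arbitrary coefficients: the theorem
-/

set_option autoImplicit false
set_option linter.unusedSectionVars false

namespace Pool.Agent.H543.MQ.U

open Finset Filter Polynomial
open Pool.Agent.R498.MT hiding Vp_low pt_up exb' c1z PP_rt PP_sys PP_V
open Pool.Agent.H543.MQ hiding pre core1q core2
open Pool.Agent.Y677.RSZ (rt Sys rhoT per_mod ev_log V eng_all)
open Pool.Agent.TH423.SH (PS)
open Pool.Agent.W23.DC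
open Pool.Agent.Y882
open Pool.Agent.Y882.PX hiding gd
open Pool.Agent.Y882.KW
open Pool.Agent.Y346.PA (S_KL)
open Pool.Agent.H543.DD
open Pool.Agent.H543.DP (fv NV dt NS cF)

open Classical in
/-- **Clusters of values with at most two prime factors, uniformly.** -/
theorem clu_u (A : ℕ) (B C : ℤ) (hA : 1 ≤ A) (hna : ¬ IsSquare (-(dt A B C)))
    (CG : ℕ) (hGs : ∀ n : ℕ, fv A B C (n : ℤ) ≠ 0 ∧ (fv A B C (n : ℤ)).natAbs ≤ CG * (n + 1) ^ 2) :
    ∃ δ₀ : ℝ, 0 < δ₀ ∧ δ₀ ≤ 1 / 100 ∧ ∀ g : ℕ, 1 ≤ g → Sys g (fv A B C) →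
    ∃ Cc : ℝ, 0 < Cc ∧ ∀ m : ℕ,
    ∃ (K₀ D : ℕ) (δ : ℝ), 0 < δ ∧ (K₀ : ℝ) ≤ Real.exp (Real.exp (Cc * (m + 1))) ∧
      (∀ᶠ N : ℕ in atTop, ∀ F : ℤ → ℤ, Sys0 g F →
        (∀ p : ℕ, p.Prime → ∀ n : ℤ, (p : ℤ) ∣ fv A B C n → (p : ℤ) ∣ F n) →
        ∀ HH : Finset ℕ, K₀ ≤ HH.card → (∀ h ∈ HH, (h : ℝ) ≤ (N : ℝ) ^ δ) →
        ∀ X : ℕ, (N : ℝ) ^ (1 - δ₀) ≤ X → 2 * X ≤ N →
        ∃ H ⊆ HH, H.card = m ∧
          X / Real.log N ^ D ≤ (((Ioc N (N + X)).filter (fun n : ℕ => ∀ h ∈ H,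
            Gf A B C F N δ (n + h))).card : ℝ)) ∧
      (∀ P : ℤ[X], P ≠ 0 → Sys0 g (fun n => P.eval n) →
        (∀ p : ℕ, p.Prime → ∀ n : ℤ, (p : ℤ) ∣ fv A B C n → (p : ℤ) ∣ P.eval n) →
        ∀ HH : Finset ℕ, K₀ ≤ HH.card → ∀ l : ℕ, 2 ≤ l →
        ∃ B' : ℕ, ∀ᶠ N : ℕ in atTop, ∀ X : ℕ, (N : ℝ) ^ (1 - δ₀) ≤ X → 2 * X ≤ N →
        ∃ H ⊆ HH, H.card = m ∧
          X / Real.log N ^ D ≤ (((Ioc N (N + X)).filter (fun n : ℕ => ∀ h ∈ H,
            Gf A B C (fun n => P.eval n) N δ (n + h))).card : ℝ) ∧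
          ∃ n d : ℕ, N < n ∧ n + (l - 1) * d ≤ N + X ∧ 1 ≤ d ∧
          (d : ℝ) ≤ Real.log N ^ B' ∧
          ∀ j < l, ∀ h ∈ H, Gf A B C (fun n => P.eval n) N δ (n + j * d + h)) := by
  classical
  obtain ⟨κ, hκ, hκ1, hmid⟩ := mid A B C hA hna CG hGs
  refine ⟨κ / 2, by positivity, by linarith, ?_⟩
  intro g hg1 hG
  obtain ⟨Cc, hCc, hmid⟩ := hmid g hg1 hG
  refine ⟨Cc, hCc, ?_⟩
  intro m
  obtain ⟨k, W, ε₁, c, hKb, hW2, hWsq, hWp, hε, hεζ, hc, hmid⟩ := hmid m
  have hW0 : 0 < W := by omega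
  have hW0r : (0 : ℝ) < W := by exact_mod_cast hW0
  obtain ⟨aL, haL⟩ : ∃ aL : ℕ, aL = 2 * (g * 2 ^ k) + 1 := ⟨_, rfl⟩
  rw [← haL] at hmid
  have hg0 : (0 : ℝ) < (g : ℝ) + 1 := by positivity
  have hδε : ε₁ / (g + 1) ≤ ε₁ := by
    rw [div_le_iff₀ hg0]
    have : (0 : ℝ) ≤ g := Nat.cast_nonneg g
    nlinarith
  have hev : ∀ᶠ N : ℕ in atTop, 2 ^ aL * (4 * W) / c ≤ Real.log (N : ℝ) :=
    (Real.tendsto_log_atTop.comp tendsto_natCast_atTop_atTop).eventually_ge_atTop _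
  refine ⟨W * 2 ^ k, aL + 1, ε₁ / (g + 1), by positivity, hKb, ?_, ?_⟩
  · filter_upwards [hmid, hev, eventually_ge_atTop 5] with N hN hlog hN5 F hF hGF HH hHH hHb X hX1 hX2
    obtain ⟨r, t, hrW, ht, hmem⟩ := shifts W (2 ^ k) hW0 HH hHH
    obtain ⟨b, hbW, hb⟩ := exb' hF W hW0 hWsq
    have hti : ∀ i, (t i : ℝ) ≤ (N : ℝ) ^ (ε₁ / (g + 1)) := by
      intro i
      refine le_trans ?_ (hHb _ (hmem i))
      have h1 : t i ≤ W * t i + r := by
        have := Nat.le_mul_of_pos_left (t i) hW0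
        omega
      exact_mod_cast h1
    obtain ⟨L, z, M, Hs, A', h1, h2, h3, h4, h5, h6, h7, h8, h9, h10, h11⟩ :=
      hN t ht hti F hF hGF b hbW hb r hrW X hX1 hX2
    obtain ⟨w1, w2, w3⟩ := wrap A B C F N W b r k m L z M X aL ε₁ (ε₁ / (g + 1)) c t Hs A' HH hW2 hbW
      hrW ht hmem hc hN5 hδε hlog h1 h2 h3 h4 h5 h7 h9 h10 (fun K hK => ⟨(h11 K hK).1, (h11 K hK).2.2⟩)
    exact ⟨_, w1, w2, w3⟩
  · intro P hP hF hGF HH hHH l hl
    obtain ⟨r, t, hrW, ht, hmem⟩ := shifts W (2 ^ k) hW0 HH hHH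
    obtain ⟨b, hbW, hb⟩ := exb' hF W hW0 hWsq
    obtain ⟨g', hS⟩ := PP_sys P hP g hF W b t hWp hb
    obtain ⟨KP, DP, hKD⟩ := Pool.Agent.W123.RU.Poly.eval_bound (PP P W t)
    obtain ⟨n₀, hn₀⟩ := Pool.Agent.Y677.RSZ.ne_zero_ev (PP P W t) (PP_ne P hP W t)
    obtain ⟨κ', hκ'⟩ : ∃ κ' : ℝ, κ' = c / W := ⟨_, rfl⟩
    have hκ'0 : 0 < κ' := by rw [hκ']; positivity
    obtain ⟨B', H₀, hB⟩ := eng_all l (g' + 4 * (DP + 1)) (ε₁ / 2) κ' hl (by positivity) hκ'0
    obtain ⟨NT, hNT⟩ : ∃ NT : ℕ, ∀ i, t i ≤ NT :=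
      ⟨univ.sup t, fun i => Finset.le_sup (f := t) (mem_univ i)⟩
    refine ⟨B', ?_⟩
    have hev1 : ∀ᶠ N : ℕ in atTop, (NT : ℝ) ≤ (N : ℝ) ^ (ε₁ / (g + 1)) :=
      ((tendsto_rpow_atTop (by positivity)).comp tendsto_natCast_atTop_atTop).eventually_ge_atTop _
    have hev2 : ∀ᶠ N : ℕ in atTop, (H₀ : ℝ) ≤ (N : ℝ) ^ (1 / 2 : ℝ) :=
      ((tendsto_rpow_atTop (by norm_num)).comp tendsto_natCast_atTop_atTop).eventually_ge_atTop _
    filter_upwards [hmid, hev, eventually_ge_atTop 5, hev1, hev2, eventually_ge_atTop KP,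
      eventually_ge_atTop (n₀ + W), eventually_ge_atTop (W * NT + 4 * W + 4 * b + 4)]
      with N hN hlog hN5 hNTN hH₀ hKPN hn₀N hWN X hX1 hX2
    have hti : ∀ i, (t i : ℝ) ≤ (N : ℝ) ^ (ε₁ / (g + 1)) := by
      intro i
      refine le_trans ?_ hNTN
      exact_mod_cast hNT i
    obtain ⟨L, z, M, Hs, A', h1, h2, h3, h4, h5, h6, h7, h8, h9, h10, h11⟩ :=
      hN t ht hti (fun n => P.eval n) hF hGF b hbW hb r hrW X hX1 hX2
    obtain ⟨w1, w2, w3⟩ := wrap A B C (fun n => P.eval n) N W b r k m L z M X aL ε₁ (ε₁ / (g + 1)) c t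
      Hs A' HH hW2 hbW
      hrW ht hmem hc hN5 hδε hlog h1 h2 h3 h4 h5 h7 h9 h10 (fun K hK => ⟨(h11 K hK).1, (h11 K hK).2.2⟩)
    refine ⟨_, w1, w2, w3, ?_⟩
    have hNr : (5 : ℝ) ≤ N := by exact_mod_cast hN5
    have hN0 : (0 : ℝ) < N := by linarith
    have hN1 : (1 : ℝ) ≤ N := by linarith
    have hYp : ∀ x : ℝ, ((N ^ 2 : ℕ) : ℝ) ^ x = (N : ℝ) ^ (2 * x) := by
      intro x
      push_cast
      rw [← Real.rpow_natCast, ← Real.rpow_mul hN0.le]
      norm_num
    have hWL2 : W * (L + 2) = W * L + W + W := by ring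
    have hbds : ∀ K ∈ Ioc M (M + L), N + r < W * K + b ∧ W * K + b ≤ N + r + W + W * L + b ∧
        W * K + b ≤ 3 * N := by
      intro K hK
      rw [mem_Ioc] at hK
      have h2 : W * (M + 1) ≤ W * K := Nat.mul_le_mul_left _ (by omega)
      have h3 : W * K ≤ W * (M + L) := Nat.mul_le_mul_left _ hK.2
      have h5 : W * (M + L) = W * M + W * L := by ring
      have h6 : W * (M + 1) = W * M + W := by ring
      refine ⟨by omega, by omega, by omega⟩
    have hWL : ((N : ℝ)) ^ (1 / 2 : ℝ) ≤ ((W * L : ℕ) : ℝ) := by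
      refine h6.trans ?_
      have : L ≤ W * L := Nat.le_mul_of_pos_left _ hW0
      exact_mod_cast this
    have hWL1 : 1 ≤ W * L := by
      have h1 : (1 : ℝ) ≤ ((W * L : ℕ) : ℝ) := le_trans (Real.one_le_rpow hN1 (by norm_num)) hWL
      exact_mod_cast h1
    have hWLr : (1 : ℝ) ≤ ((W * L : ℕ) : ℝ) := by exact_mod_cast hWL1
    have hWLN : ((W * L : ℕ) : ℝ) ≤ N := by
      have : W * L ≤ N := by omega
      exact_mod_cast this
    have hH₀' : H₀ ≤ W * L := by
      have : (H₀ : ℝ) ≤ ((W * L : ℕ) : ℝ) := hH₀.trans hWL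
      exact_mod_cast this
    obtain ⟨a, d, hd1, hd2, had⟩ := hB (fun n => (PP P W t).eval n) (W * M + b) (W * L)
      (A'.image (fun K => W * K + b)) (Pool.Agent.Y677.RSZ.Sys.mono hS (by omega)) hH₀'
      (by
        intro n hn
        rw [mem_Ioc] at hn
        have hn1 : n ≤ 3 * N := by omega
        have hn2 : N ≤ n + W := by omega
        refine ⟨?_, ?_⟩
        · exact hn₀ n (by omega)
        · have h8 := size_P (PP P W t) KP DP N (W * L) hKD (by omega)
            (by exact_mod_cast hKPN) hWL n (by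
            have e1 : n + 1 ≤ N ^ 2 := by
              have : 5 * N ≤ N ^ 2 := by
                rw [sq]
                exact Nat.mul_le_mul_right _ hN5
              omega
            exact_mod_cast e1)
          refine h8.trans ?_
          exact pow_le_pow_right₀ (by exact_mod_cast hWL1) (by omega))
      (by
        intro x hx
        rw [mem_image] at hx
        obtain ⟨K, hK, rfl⟩ := hx
        have h1 := (h11 K hK).1
        rw [mem_Ioc] at h1 ⊢
        have h2 : W * (M + 1) ≤ W * K := Nat.mul_le_mul_left _ (by omega)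
        have h3 : W * K ≤ W * (M + L) := Nat.mul_le_mul_left _ h1.2
        have h5 : W * (M + L) = W * M + W * L := by ring
        have h7 : W * (M + 1) = W * M + W := by ring
        constructor <;> omega)
      (by
        intro x hx p hp hpH hdvd
        rw [mem_image] at hx
        obtain ⟨K, hK, rfl⟩ := hx
        obtain ⟨i, hi⟩ := (PP_dvd P W b t p hp K).1 hdvd
        refine (h11 K hK).2.1 p hp ?_ i hi
        refine hpH.trans_lt ?_
        rw [hYp]
        calc ((W * L : ℕ) : ℝ) ^ (ε₁ / 2) ≤ (N : ℝ) ^ (ε₁ / 2) :=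
              Real.rpow_le_rpow (by positivity) hWLN (by positivity)
          _ < (N : ℝ) ^ (2 * ε₁) := Real.rpow_lt_rpow_of_exponent_lt (by linarith) (by linarith))
      (by
        rw [card_image_of_injective _ (fun K K' hKK => by
          have h1 : W * K + b = W * K' + b := hKK
          have h2 : W * K = W * K' := by omega
          exact Nat.eq_of_mul_eq_mul_left hW0 h2)]
        refine le_trans ?_ h2
        have hzWL : z ≤ W * L := by
          have h1 : (z : ℝ) ≤ ((W * L : ℕ) : ℝ) := by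
            refine h8.le.trans (le_trans ?_ hWL)
            rw [hYp]
            refine Real.rpow_le_rpow_of_exponent_le hN1 ?_
            have : pζ = 12 / 100 := rfl
            linarith
          exact_mod_cast h1
        have h1 := PP_V P g hF W b z (W * L) t hzWL
        calc κ' * ((W * L : ℕ) * V (fun n => (PP P W t).eval n) 1 (W * L)) ≤
            κ' * ((W * L : ℕ) * Vp (fun n => P.eval n) W b z t) := by gcongr
          _ = c * (L * Vp (fun n => P.eval n) W b z t) := by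
              rw [hκ']
              push_cast
              field_simp)
    have hpt : ∀ j < l, ∃ K ∈ A', W * K + b = a + j * d := by
      intro j hj
      have h1 := had j hj
      rw [mem_image] at h1
      obtain ⟨K, hK, h2⟩ := h1
      exact ⟨K, hK, h2⟩
    obtain ⟨K0, hK0, hK0a⟩ := hpt 0 (by omega)
    rw [zero_mul, add_zero] at hK0a
    obtain ⟨K1, hK1, hK1a⟩ := hpt (l - 1) (by omega)
    have hb0 := hbds K0 (h11 K0 hK0).1
    have hb1 := hbds K1 (h11 K1 hK1).1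
    rw [hK0a] at hb0
    rw [hK1a] at hb1
    refine ⟨a - r, d, by omega, by omega, hd1, ?_, ?_⟩
    · refine hd2.trans ?_
      apply pow_le_pow_left₀ (Real.log_nonneg hWLr)
      exact Real.log_le_log (by linarith) hWLN
    · intro j hj h hh
      rw [mem_image] at hh
      obtain ⟨i, hi, rfl⟩ := hh
      obtain ⟨K, hK, hKa⟩ := hpt j hj
      have e : a - r + j * d + (W * t i + r) = W * (K + t i) + b := by
        have h1 := pt_eq W b r K (t i) (a + j * d) hKa (by omega)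
        omega
      rw [e]
      exact Gf_mono A B C _ N _ ε₁ hδε (by omega) _ ((h11 K hK).2.2 i hi)

/-- the number of the roots modulo a prime -/
theorem rt_poly (P : ℤ[X]) (p : ℕ) (hp : p.Prime) (h : ∃ n : ℤ, ¬ (p : ℤ) ∣ P.eval n) :
    rt (fun n => P.eval n) p ≤ P.natDegree ∧ rt (fun n => P.eval n) p < p := by
  classical
  haveI := Fact.mk hp
  obtain ⟨n, hn⟩ := h
  have hne : P.map (Int.castRingHom (ZMod p)) ≠ 0 := by
    intro h0
    apply hn
    rw [← ZMod.intCast_zmod_eq_zero_iff_dvd]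
    have h1 := congrArg (fun Q : (ZMod p)[X] => Q.eval (n : ZMod p)) h0
    simp only [eval_zero] at h1
    rw [← h1, eval_map, eval₂_at_intCast]
    simp
  constructor
  · unfold rt
    refine le_trans ?_ ((Polynomial.card_roots' (P.map (Int.castRingHom (ZMod p)))).trans
      natDegree_map_le)
    refine le_trans ?_ (Multiset.toFinset_card_le _)
    apply card_le_card_of_injOn (fun r : ℕ => (r : ZMod p))
    · intro r hr
      rw [mem_coe, mem_filter] at hr
      rw [mem_coe, Multiset.mem_toFinset, mem_roots hne, IsRoot.def, eval_map]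
      have h1 := (ZMod.intCast_zmod_eq_zero_iff_dvd (P.eval (r : ℤ)) p).2 hr.2
      have h2 : eval₂ (Int.castRingHom (ZMod p)) ((r : ℤ) : ZMod p) P = ((P.eval (r : ℤ) : ℤ) : ZMod p) := by
        rw [eval₂_at_intCast]
        simp
      rw [← h1, ← h2]
      simp
    · intro r hr r' hr' hrr
      rw [mem_coe, mem_filter, mem_range] at hr hr'
      have h1 := (ZMod.natCast_eq_natCast_iff' r r' p).1 hrr
      rwa [Nat.mod_eq_of_lt hr.1, Nat.mod_eq_of_lt hr'.1] at h1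
  · unfold rt
    have h1 : ((range p).filter (fun r : ℕ => (p : ℤ) ∣ P.eval (r : ℤ))) ⊂ range p := by
      rw [Finset.ssubset_iff_of_subset (filter_subset _ _)]
      refine ⟨(n % p).toNat, ?_, ?_⟩
      · rw [mem_range]
        have h1 := Int.emod_nonneg n (show (p : ℤ) ≠ 0 by exact_mod_cast hp.ne_zero)
        have h2 := Int.emod_lt_of_pos n (show (0 : ℤ) < p by exact_mod_cast hp.pos)
        omega
      · rw [mem_filter]
        rintro ⟨-, h2⟩
        apply hn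
        have h1 := Int.emod_nonneg n (show (p : ℤ) ≠ 0 by exact_mod_cast hp.ne_zero)
        rw [Int.toNat_of_nonneg h1] at h2
        have h3 := sub_dvd_eval_sub n (n % p) P
        have h4 : (p : ℤ) ∣ n - n % p := Int.dvd_self_sub_emod
        have h5 := dvd_add (h4.trans h3) h2
        rwa [sub_add_cancel] at h5
    have h2 := card_lt_card h1
    rwa [card_range] at h2

theorem sys0_poly (P : ℤ[X]) (g : ℕ) (hd : P.natDegree ≤ g)
    (h : ∀ p : ℕ, p.Prime → ∃ n : ℤ, ¬ (p : ℤ) ∣ P.eval n) : Sys0 g (fun n => P.eval n) := by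
  refine ⟨fun p hp n => ?_, fun p hp => ?_⟩
  · have h1 := sub_dvd_eval_sub (n + p) n P
    rw [add_sub_cancel_left] at h1
    exact h1
  · obtain ⟨h1, h2⟩ := rt_poly P p hp (h p hp)
    exact ⟨h1.trans hd, h2⟩

end Pool.Agent.H543.MQ.U
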