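import Pool.Agent.H543.MQ.U.U5

/-!
# Families of polynomials with arbitrary coefficients: the theorem for polynomials
-/

set_option autoImplicit false
set_option linter.unusedSectionVars false

namespace Pool.Agent.H543.MQ.U

open Finset Filter Polynomial
open Pool.Agent.R498.MT (QG QG_eval QG_ne_zero)
open Pool.Agent.Y677.RSZ (Sys)
open Pool.Agent.H543.DP (fv dt)

theorem QG_deg (A : ℕ) (B C : ℤ) : (QG A B C).natDegree ≤ 2 := by
  unfold QG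
  compute_degree

theorem Gf_of_mul (A : ℕ) (B C : ℤ) (g : ℤ[X]) (N : ℕ) (δ : ℝ) (x : ℕ)
    (h : Gf A B C (fun n => (QG A B C * g).eval n) N δ x) : Gf A B C (fun n => g.eval n) N δ x := by
  refine ⟨h.1, h.2.1, fun p hp hd => h.2.2 p hp ?_⟩
  show (p : ℤ) ∣ (QG A B C * g).eval (x : ℤ)
  rw [eval_mul]
  exact Dvd.dvd.mul_left hd _

open Classical in
/-- **Clusters of values with at most two prime factors, uniformly in the companion polynomial and in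
the set of shifts.** -/
theorem clu_poly (A : ℕ) (B C : ℤ) (hA : 1 ≤ A) (hna : ¬ IsSquare (B ^ 2 - 4 * (A : ℤ) * C)) :
    ∃ δ₀ : ℝ, 0 < δ₀ ∧ δ₀ ≤ 1 / 100 ∧ ∀ D₀ : ℕ, ∃ Cc : ℝ, 0 < Cc ∧ ∀ m : ℕ,
    ∃ (K₀ D : ℕ) (δ : ℝ), 0 < δ ∧ (K₀ : ℝ) ≤ Real.exp (Real.exp (Cc * (m + 1))) ∧
      (∀ᶠ N : ℕ in atTop, ∀ g : ℤ[X], g.natDegree ≤ D₀ →
        (∀ p : ℕ, p.Prime → ∃ n : ℤ, ¬ (p : ℤ) ∣ fv A B C n * g.eval n) →
        ∀ HH : Finset ℕ, K₀ ≤ HH.card → (∀ h ∈ HH, (h : ℝ) ≤ (N : ℝ) ^ δ) →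
        ∀ X : ℕ, (N : ℝ) ^ (1 - δ₀) ≤ X → 2 * X ≤ N →
        ∃ H ⊆ HH, H.card = m ∧
          X / Real.log N ^ D ≤ (((Ioc N (N + X)).filter (fun n : ℕ => ∀ h ∈ H,
            Gf A B C (fun n => g.eval n) N δ (n + h))).card : ℝ)) ∧
      (∀ g : ℤ[X], g.natDegree ≤ D₀ →
        (∀ p : ℕ, p.Prime → ∃ n : ℤ, ¬ (p : ℤ) ∣ fv A B C n * g.eval n) →
        ∀ HH : Finset ℕ, K₀ ≤ HH.card → ∀ l : ℕ, 2 ≤ l →
        ∃ B' : ℕ, ∀ᶠ N : ℕ in atTop, ∀ X : ℕ, (N : ℝ) ^ (1 - δ₀) ≤ X → 2 * X ≤ N →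
        ∃ H ⊆ HH, H.card = m ∧
          X / Real.log N ^ D ≤ (((Ioc N (N + X)).filter (fun n : ℕ => ∀ h ∈ H,
            Gf A B C (fun n => g.eval n) N δ (n + h))).card : ℝ) ∧
          ∃ n d : ℕ, N < n ∧ n + (l - 1) * d ≤ N + X ∧ 1 ≤ d ∧
          (d : ℝ) ≤ Real.log N ^ B' ∧
          ∀ j < l, ∀ h ∈ H, Gf A B C (fun n => g.eval n) N δ (n + j * d + h)) := by
  classical
  by_cases hfd : ∀ p : ℕ, p.Prime → ∃ n : ℤ, ¬ (p : ℤ) ∣ fv A B C n
  swap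
  · have hno : ∀ g : ℤ[X], ¬ ∀ p : ℕ, p.Prime → ∃ n : ℤ, ¬ (p : ℤ) ∣ fv A B C n * g.eval n := by
      intro g hg
      apply hfd
      intro p hp
      obtain ⟨n, hn⟩ := hg p hp
      exact ⟨n, fun h => hn (Dvd.dvd.mul_right h _)⟩
    refine ⟨1 / 100, by norm_num, le_rfl, fun D₀ => ⟨1, one_pos, fun m => ⟨0, 0, 1, one_pos, ?_, ?_,
      ?_⟩⟩⟩
    · rw [Nat.cast_zero]
      positivity
    · exact Eventually.of_forall fun N g _ hg => absurd hg (hno g)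
    · exact fun g _ hg => absurd hg (hno g)
  have hΔ : ¬ IsSquare (-(dt A B C)) := by
    have e : B ^ 2 - 4 * (A : ℤ) * C = -(dt A B C) := by unfold dt; ring
    rw [← e]
    exact hna
  have hGne : QG A B C ≠ 0 := by
    intro h
    have := congrArg (fun Q : ℤ[X] => Q.eval 0) h
    simp only [QG_eval, eval_zero] at this
    exact QG_ne_zero A B C hna 0 this
  have hGd : ∀ p : ℕ, p.Prime → ∃ n : ℤ, ¬ (p : ℤ) ∣ (QG A B C).eval n := by
    intro p hp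
    obtain ⟨n, hn⟩ := hfd p hp
    refine ⟨n, fun h => hn ?_⟩
    rwa [QG_eval] at h
  obtain ⟨g₁, hg₁⟩ := Pool.Agent.Y677.RSZ.poly_all (QG A B C) hGne hGd
  rw [Pool.Agent.H543.MQ.fv_QG] at hg₁
  obtain ⟨δ₀, hδ₀, hδ₀1, hcl⟩ := clu_u A B C hA hΔ (A + B.natAbs + C.natAbs) (fun n => by
      constructor
      · show (A : ℤ) * (n : ℤ) ^ 2 + B * n + C ≠ 0
        exact QG_ne_zero A B C hna _
      · show ((A : ℤ) * (n : ℤ) ^ 2 + B * n + C).natAbs ≤ _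
        have h1 : ((A : ℤ) * (n : ℤ) ^ 2 + B * n + C).natAbs ≤
            A * n ^ 2 + B.natAbs * n + C.natAbs := by
          calc ((A : ℤ) * (n : ℤ) ^ 2 + B * n + C).natAbs ≤
                ((A : ℤ) * (n : ℤ) ^ 2 + B * n).natAbs + C.natAbs := Int.natAbs_add_le _ _
            _ ≤ ((A : ℤ) * (n : ℤ) ^ 2).natAbs + (B * n).natAbs + C.natAbs := by
                have := Int.natAbs_add_le ((A : ℤ) * (n : ℤ) ^ 2) (B * n)
                omega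
            _ = _ := by
                rw [Int.natAbs_mul, Int.natAbs_mul, Int.natAbs_pow, Int.natAbs_natCast,
                  Int.natAbs_natCast]
        refine h1.trans ?_
        nlinarith [Nat.zero_le (A * n), Nat.zero_le (B.natAbs * n ^ 2),
          Nat.zero_le (B.natAbs * n), Nat.zero_le (C.natAbs * n), Nat.zero_le (C.natAbs * n ^ 2),
          Nat.zero_le A, Nat.zero_le B.natAbs, Nat.zero_le C.natAbs])
  refine ⟨δ₀, hδ₀, hδ₀1, fun D₀ => ?_⟩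
  obtain ⟨Cc, hCc, hcl⟩ := hcl (D₀ + 2 + g₁ + 1) (by omega)
    (Pool.Agent.Y677.RSZ.Sys.mono hg₁ (by omega))
  refine ⟨Cc, hCc, fun m => ?_⟩
  obtain ⟨K₀, D, δ, hδ, hK, h1, h2⟩ := hcl m
  have heval : ∀ (g : ℤ[X]) (n : ℤ), (QG A B C * g).eval n = fv A B C n * g.eval n := by
    intro g n
    rw [eval_mul, QG_eval]
    rfl
  have hsys : ∀ g : ℤ[X], g.natDegree ≤ D₀ →
      (∀ p : ℕ, p.Prime → ∃ n : ℤ, ¬ (p : ℤ) ∣ fv A B C n * g.eval n) →
      Sys0 (D₀ + 2 + g₁ + 1) (fun n => (QG A B C * g).eval n) := by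
    intro g hgd hg
    apply sys0_poly
    · have h3 := natDegree_mul_le (p := QG A B C) (q := g)
      have h4 := QG_deg A B C
      omega
    · intro p hp
      obtain ⟨n, hn⟩ := hg p hp
      exact ⟨n, by rwa [heval]⟩
  have hdvd : ∀ (g : ℤ[X]) (p : ℕ), p.Prime → ∀ n : ℤ, (p : ℤ) ∣ fv A B C n →
      (p : ℤ) ∣ (QG A B C * g).eval n := by
    intro g p _ n hn
    rw [heval]
    exact Dvd.dvd.mul_right hn _
  have hcount : ∀ (g : ℤ[X]) (N X : ℕ) (H : Finset ℕ),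
      (((Ioc N (N + X)).filter (fun n : ℕ => ∀ h ∈ H,
        Gf A B C (fun n => (QG A B C * g).eval n) N δ (n + h))).card : ℝ) ≤
      (((Ioc N (N + X)).filter (fun n : ℕ => ∀ h ∈ H,
        Gf A B C (fun n => g.eval n) N δ (n + h))).card : ℝ) := by
    intro g N X H
    have : ((Ioc N (N + X)).filter (fun n : ℕ => ∀ h ∈ H,
        Gf A B C (fun n => (QG A B C * g).eval n) N δ (n + h))).card ≤
      ((Ioc N (N + X)).filter (fun n : ℕ => ∀ h ∈ H,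
        Gf A B C (fun n => g.eval n) N δ (n + h))).card :=
      card_le_card (fun n hn => by
        rw [mem_filter] at hn ⊢
        exact ⟨hn.1, fun h hh => Gf_of_mul A B C g N δ _ (hn.2 h hh)⟩)
    exact_mod_cast this
  refine ⟨K₀, D, δ, hδ, hK, ?_, ?_⟩
  · filter_upwards [h1] with N hN g hgd hg HH hHH hHb X hX1 hX2
    obtain ⟨H, hH, hHm, hnum⟩ := hN (fun n => (QG A B C * g).eval n) (hsys g hgd hg) (hdvd g) HH hHH
      hHb X hX1 hX2
    exact ⟨H, hH, hHm, hnum.trans (hcount g N X H)⟩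
  · intro g hgd hg HH hHH l hl
    have hg0 : g ≠ 0 := by
      rintro rfl
      obtain ⟨n, hn⟩ := hg 2 Nat.prime_two
      apply hn
      simp
    obtain ⟨B', hB⟩ := h2 (QG A B C * g) (mul_ne_zero hGne hg0) (hsys g hgd hg) (hdvd g) HH hHH l hl
    refine ⟨B', ?_⟩
    filter_upwards [hB] with N hN X hX1 hX2
    obtain ⟨H, hH, hHm, hnum, n, d, a1, a2, a3, a4, a5⟩ := hN X hX1 hX2
    exact ⟨H, hH, hHm, hnum.trans (hcount g N X H), n, d, a1, a2, a3, a4,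
      fun j hj h hh => Gf_of_mul A B C g N δ _ (a5 j hj h hh)⟩

end Pool.Agent.H543.MQ.U
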